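import Mathlib
import Pool.Agent.KS7_39.F4F.Base

set_option autoImplicit false
open MeasureTheory

namespace Pool.Agent.Results.MP_4fa6ed_nt.Khintchine

open Pool.Agent.KS7_39.F4F

universe u

/-- One direction (`d < b`) for actions of the multiplicative semigroup of positive integers, with
both orders of the two sets. -/
lemma half (a : ℕ) (b d : ℤ) (ha : 0 < a)
    (hgcd : ∀ k : ℤ, k ∣ (a : ℤ) → k ∣ b → k ∣ d → IsUnit k) (hdvd : (a : ℤ) ∣ b * d) (hbd : d < b)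
    (ε : ℝ) (hε : 0 < ε) (n₀ : ℕ) :
    ∃ N : ℕ, ∀ (X : Type u) [MeasurableSpace X] (μ : Measure X) [IsProbabilityMeasure μ]
      (T : ℕ → X → X), (∀ m n : ℕ, 0 < m → 0 < n → T (m * n) = T m ∘ T n) →
      (∀ m : ℕ, 0 < m → MeasurePreserving (T m) μ μ) → ∀ A : Set X, MeasurableSet A →
      ∃ n : ℕ, n₀ ≤ n ∧ n ≤ N ∧ 0 < n ∧ 0 < (a : ℤ) * n + b ∧ 0 < (a : ℤ) * n + d ∧
        μ.real A ^ 2 - ε <
          μ.real (T ((a : ℤ) * n + b).toNat ⁻¹' A ∩ T ((a : ℤ) * n + d).toNat ⁻¹' A) := by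
  obtain ⟨r, hr⟩ : ∃ r : ℕ, 1 < ((r : ℝ) - 1) * ε := by
    obtain ⟨r, hr⟩ := exists_nat_gt (1 / ε + 1)
    refine ⟨r, ?_⟩
    have : 1 / ε < (r : ℝ) - 1 := by linarith
    rwa [div_lt_iff₀ hε] at this
  obtain ⟨S, N, hS, hS0, hSg⟩ := pick a b d ha hgcd hdvd hbd n₀ r
  refine ⟨N, fun X _ μ _ T hT hmp A hA => ?_⟩
  obtain ⟨x, hx, y, hy, hxy, hlt⟩ := exists_inter μ ε hε S (by rw [hS]; exact hr)
    (fun s => T s ⁻¹' A) (fun s hs => (hmp s (hS0 s hs)).measurable hA) (μ.real A)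
    (fun s hs => (hmp s (hS0 s hs)).measureReal_preimage hA.nullMeasurableSet)
  obtain ⟨t, e, n, ht, he, hxt, hyt, hn0, hnN, hn, hd, hb⟩ := hSg x hx y hy hxy
  have hbd' : 0 < b - d := by omega
  have htZ : (0 : ℤ) < t := by exact_mod_cast ht
  refine ⟨n, hn0, hnN, hn, by rw [hb]; positivity, by rw [hd]; positivity, ?_⟩
  have hc : 0 < (b - d).toNat := by omega
  have hcast : (((b - d).toNat : ℕ) : ℤ) = b - d := Int.toNat_of_nonneg hbd'.le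
  have e1 : ((a : ℤ) * n + d).toNat = t * (b - d).toNat := by
    have : (a : ℤ) * n + d = ((t * (b - d).toNat : ℕ) : ℤ) := by
      rw [hd, Nat.cast_mul, hcast, mul_comm]
    rw [this, Int.toNat_natCast]
  have e2 : ((a : ℤ) * n + b).toNat = (t + 1) * (b - d).toNat := by
    have : (a : ℤ) * n + b = (((t + 1) * (b - d).toNat : ℕ) : ℤ) := by
      rw [hb, Nat.cast_mul, hcast, mul_comm, Nat.cast_succ]
    rw [this, Int.toNat_natCast]
  have hmeas : MeasurableSet (T t ⁻¹' A ∩ T (t + 1) ⁻¹' A) :=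
    ((hmp t ht).measurable hA).inter ((hmp (t + 1) t.succ_pos).measurable hA)
  have e3 : T x ⁻¹' A ∩ T y ⁻¹' A = T e ⁻¹' (T t ⁻¹' A ∩ T (t + 1) ⁻¹' A) := by
    rw [hxt, hyt, hT t e ht he, hT (t + 1) e t.succ_pos he]
    rfl
  have e4 : T ((a : ℤ) * n + b).toNat ⁻¹' A ∩ T ((a : ℤ) * n + d).toNat ⁻¹' A =
      T (b - d).toNat ⁻¹' (T t ⁻¹' A ∩ T (t + 1) ⁻¹' A) := by
    rw [e1, e2, hT t _ ht hc, hT (t + 1) _ t.succ_pos hc, Set.inter_comm]
    rfl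
  have e5 : T x ⁻¹' A ∩ T y ⁻¹' A = T x ⁻¹' A ∩ T y ⁻¹' A := rfl
  beta_reduce at hlt
  rw [e3, (hmp e he).measureReal_preimage hmeas.nullMeasurableSet] at hlt
  rw [e4, (hmp _ hc).measureReal_preimage hmeas.nullMeasurableSet]
  exact hlt

/-- The same for all admissible `a, b, d`. -/
lemma semi (a : ℕ) (b d : ℤ) (ha : 0 < a)
    (hgcd : ∀ k : ℤ, k ∣ (a : ℤ) → k ∣ b → k ∣ d → IsUnit k) (hbd : b = d ∨ (a : ℤ) ∣ b * d)
    (ε : ℝ) (hε : 0 < ε) (n₀ : ℕ) :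
    ∃ N : ℕ, ∀ (X : Type u) [MeasurableSpace X] (μ : Measure X) [IsProbabilityMeasure μ]
      (T : ℕ → X → X), (∀ m n : ℕ, 0 < m → 0 < n → T (m * n) = T m ∘ T n) →
      (∀ m : ℕ, 0 < m → MeasurePreserving (T m) μ μ) → ∀ A : Set X, MeasurableSet A →
      ∃ n : ℕ, n₀ ≤ n ∧ n ≤ N ∧ 0 < n ∧ 0 < (a : ℤ) * n + b ∧ 0 < (a : ℤ) * n + d ∧
        μ.real A ^ 2 - ε <
          μ.real (T ((a : ℤ) * n + b).toNat ⁻¹' A ∩ T ((a : ℤ) * n + d).toNat ⁻¹' A) := by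
  rcases lt_trichotomy b d with hlt | heq | hgt
  · have hdvd : (a : ℤ) ∣ d * b := by
      rw [mul_comm]
      exact hbd.resolve_left hlt.ne
    obtain ⟨N, hN⟩ := half.{u} a d b ha (fun k h1 h2 h3 => hgcd k h1 h3 h2) hdvd hlt ε hε n₀
    refine ⟨N, fun X _ μ _ T hT hmp A hA => ?_⟩
    obtain ⟨n, h1, h2, h3, h4, h5, h6⟩ := hN X μ T hT hmp A hA
    exact ⟨n, h1, h2, h3, h5, h4, by rwa [Set.inter_comm]⟩
  · subst heq
    refine ⟨n₀ + b.natAbs + 1, fun X _ μ _ T hT hmp A hA =>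
      ⟨n₀ + b.natAbs + 1, by omega, le_rfl, by omega, ?_, ?_, ?_⟩⟩
    · have h1 : (1 : ℤ) ≤ a := by exact_mod_cast ha
      have h2 := neg_abs_le b
      have h3 : (1 : ℤ) * (n₀ + |b| + 1) ≤ a * (n₀ + |b| + 1) :=
        mul_le_mul_of_nonneg_right h1 (by positivity)
      push_cast
      have h4 : (0 : ℤ) ≤ n₀ := by positivity
      linarith
    · have h1 : (1 : ℤ) ≤ a := by exact_mod_cast ha
      have h2 := neg_abs_le b
      have h3 : (1 : ℤ) * (n₀ + |b| + 1) ≤ a * (n₀ + |b| + 1) :=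
        mul_le_mul_of_nonneg_right h1 (by positivity)
      push_cast
      have h4 : (0 : ℤ) ≤ n₀ := by positivity
      linarith
    · have hp : 0 < ((a : ℤ) * ((n₀ + b.natAbs + 1 : ℕ) : ℤ) + b).toNat := by
        have h1 : (1 : ℤ) ≤ a := by exact_mod_cast ha
        have h2 := neg_abs_le b
        have h3 : (1 : ℤ) * (n₀ + |b| + 1) ≤ a * (n₀ + |b| + 1) :=
          mul_le_mul_of_nonneg_right h1 (by positivity)
        have h4 : (0 : ℤ) ≤ n₀ := by positivity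
        have h5 : (0 : ℤ) < (a : ℤ) * ((n₀ + b.natAbs + 1 : ℕ) : ℤ) + b := by
          push_cast
          linarith
        omega
      rw [Set.inter_self, (hmp _ hp).measureReal_preimage hA.nullMeasurableSet]
      have h0 : 0 ≤ μ.real A := measureReal_nonneg
      have h1 : μ.real A ≤ 1 := measureReal_le_one
      nlinarith
  · exact half.{u} a b d ha hgcd (hbd.resolve_left hgt.ne') hgt ε hε n₀

/-- **Optimal (Khintchine type) multiplicative recurrence along `(an+b)/(an+d)`.** Let `a ≥ 1`,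
`gcd(a, b, d) = 1` and `b = d` or `a ∣ b d`. For every `ε > 0` and `n₀` there is `N`, depending only
on `a, b, d, ε, n₀`, such that every measure preserving action `T` of the positive rationals under
multiplication (part 1), and every measure preserving action of the semigroup of positive integers
under multiplication, invertible or not (part 2), satisfies: for each measurable set `A` some
`n ∈ [n₀, N]`, `n ≥ 1`, has `an + b > 0`, `an + d > 0` and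
`μ(A ∩ T_{(an+b)/(an+d)}⁻¹ A) > μ(A)² - ε`, respectively
`μ(T_{an+b}⁻¹ A ∩ T_{an+d}⁻¹ A) > μ(A)² - ε`. -/
theorem result (a : ℕ) (b d : ℤ) (ha : 0 < a)
    (hgcd : ∀ k : ℤ, k ∣ (a : ℤ) → k ∣ b → k ∣ d → IsUnit k) (hbd : b = d ∨ (a : ℤ) ∣ b * d)
    (ε : ℝ) (hε : 0 < ε) (n₀ : ℕ) :
    ∃ N : ℕ, ∀ (X : Type u) [MeasurableSpace X] (μ : Measure X) [IsProbabilityMeasure μ],
      (∀ T : ℚ → X → X, T 1 = id →
        (∀ q r : ℚ, 0 < q → 0 < r → T (q * r) = T q ∘ T r) →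
        (∀ q : ℚ, 0 < q → MeasurePreserving (T q) μ μ) → ∀ A : Set X, MeasurableSet A →
        ∃ n : ℕ, n₀ ≤ n ∧ n ≤ N ∧ 0 < n ∧ 0 < (a : ℤ) * n + b ∧ 0 < (a : ℤ) * n + d ∧
          μ.real A ^ 2 - ε < μ.real (A ∩ T (((a : ℚ) * n + b) / ((a : ℚ) * n + d)) ⁻¹' A)) ∧
      (∀ T : ℕ → X → X, (∀ m n : ℕ, 0 < m → 0 < n → T (m * n) = T m ∘ T n) →
        (∀ m : ℕ, 0 < m → MeasurePreserving (T m) μ μ) → ∀ A : Set X, MeasurableSet A →
        ∃ n : ℕ, n₀ ≤ n ∧ n ≤ N ∧ 0 < n ∧ 0 < (a : ℤ) * n + b ∧ 0 < (a : ℤ) * n + d ∧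
          μ.real A ^ 2 - ε <
            μ.real (T ((a : ℤ) * n + b).toNat ⁻¹' A ∩ T ((a : ℤ) * n + d).toNat ⁻¹' A)) := by
  obtain ⟨N, hN⟩ := semi.{u} a b d ha hgcd hbd ε hε n₀
  refine ⟨N, fun X _ μ _ => ⟨fun T _ hT hmp A hA => ?_, hN X μ⟩⟩
  obtain ⟨n, h1, h2, h3, h4, h5, h6⟩ := hN X μ (fun m : ℕ => T (m : ℚ))
    (fun m n hm hn => by
      rw [Nat.cast_mul]
      exact hT _ _ (by exact_mod_cast hm) (by exact_mod_cast hn))
    (fun m hm => hmp _ (by exact_mod_cast hm)) A hA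
  refine ⟨n, h1, h2, h3, h4, h5, ?_⟩
  have c1 : ((((a : ℤ) * n + b).toNat : ℕ) : ℚ) = (a : ℚ) * n + b := by
    have : ((((a : ℤ) * n + b).toNat : ℕ) : ℤ) = (a : ℤ) * n + b := Int.toNat_of_nonneg h4.le
    exact_mod_cast congrArg (fun z : ℤ => (z : ℚ)) this
  have c2 : ((((a : ℤ) * n + d).toNat : ℕ) : ℚ) = (a : ℚ) * n + d := by
    have : ((((a : ℤ) * n + d).toNat : ℕ) : ℤ) = (a : ℤ) * n + d := Int.toNat_of_nonneg h5.le
    exact_mod_cast congrArg (fun z : ℤ => (z : ℚ)) this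
  have p1 : (0 : ℚ) < (a : ℚ) * n + b := by exact_mod_cast h4
  have p2 : (0 : ℚ) < (a : ℚ) * n + d := by exact_mod_cast h5
  have hq : (0 : ℚ) < ((a : ℚ) * n + b) / ((a : ℚ) * n + d) := div_pos p1 p2
  have hm : MeasurableSet (A ∩ T (((a : ℚ) * n + b) / ((a : ℚ) * n + d)) ⁻¹' A) :=
    hA.inter ((hmp _ hq).measurable hA)
  have e : T ((a : ℚ) * n + b) ⁻¹' A ∩ T ((a : ℚ) * n + d) ⁻¹' A =
      T ((a : ℚ) * n + d) ⁻¹' (A ∩ T (((a : ℚ) * n + b) / ((a : ℚ) * n + d)) ⁻¹' A) := by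
    rw [Set.preimage_inter, ← Set.preimage_comp, ← hT _ _ hq p2, div_mul_cancel₀ _ p2.ne',
      Set.inter_comm]
  beta_reduce at h6
  rw [c1, c2, e, (hmp _ p2).measureReal_preimage hm.nullMeasurableSet] at h6
  exact h6

end Pool.Agent.Results.MP_4fa6ed_nt.Khintchine
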